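import Pool.Agent.H46.Cur.Obstruction

/-!
There is a simplicial complex that is 2-representable and 3-convex union representable but
not 2-convex union representable.
-/

namespace Pool.Agent.H61.Old.RepresentableNotUnion

open Pool.Agent.H46.Cur

/-- There are a number `n` and a simplicial complex on `n` vertices that is the nerve of convex
sets in the plane, is the nerve of convex open sets in three-space whose union is convex and
open, and is not the nerve of convex open sets in the plane whose union is convex and open. -/
theorem result : ∃ (n : ℕ) (Δ : Set (Finset (Fin n))), IsComplex Δ ∧
    Representable 2 Δ ∧ UnionRepresentable (2 + 1) Δ ∧ ¬ UnionRepresentable 2 Δ :=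
  ⟨19, Delta, Delta_complex, Delta_representable, Delta_unionRepresentable,
    Delta_not_unionRepresentable⟩

end Pool.Agent.H61.Old.RepresentableNotUnion
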